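import Pool.Agent.Helper53.AE.GoalsB

/-!
# Packet AE-ABS (MP_8130e1_an): absorption
-/

set_option autoImplicit false

open scoped ComplexOrder Topology
open Filter TopologicalSpace

namespace Pool.Agent.Helper51.AE

open Pool.Agent.Helper53.AE

theorem key {R : Type*} [Ring R] (v v' s1 s1' s2 s2' T A : R) (h1 : v' * v = 1)
    (h2 : s1 * s1' + s2 * s2' = 1) (h3 : s1 * T = T * s1) (h4 : s2 * T = T * s2) :
    v * s1 * T * (s1' * v') + (v * s2 * v' + (1 - v * v')) * A * (v * s2' * v' + (1 - v * v')) - A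
      = v * s2 * (v' * A * v - T) * s2' * v' + (1 - v * v') * (A * v - v * T) * s2' * v'
        + v * s2 * (v' * A - T * v') * (1 - v * v') - v * (v' * A - T * v') * (1 - v * v')
        - (A * v - v * T) * v' := by
  have e1 : ∀ x, v' * (v * x) = x := fun x => by rw [← mul_assoc, h1, one_mul]
  have e3 : ∀ x, s1 * (T * x) = T * (s1 * x) := fun x => by rw [← mul_assoc, h3, mul_assoc]
  have e4 : ∀ x, s2 * (T * x) = T * (s2 * x) := fun x => by rw [← mul_assoc, h4, mul_assoc]
  have e5 : v * (T * (s1 * (s1' * v'))) = v * (T * v') - v * (T * (s2 * (s2' * v'))) := by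
    have : s1 * (s1' * v') = v' - s2 * (s2' * v') := by
      rw [← mul_assoc, ← mul_assoc, eq_sub_iff_add_eq, ← add_mul, h2, one_mul]
    rw [this, mul_sub, mul_sub]
  simp only [mul_add, add_mul, mul_sub, sub_mul, mul_one, one_mul, mul_assoc, e1, e3, e4, e5]
  abel

theorem mem_of_star_mul {M : Type} [CStarAlgebra M] (D : NonUnitalStarSubalgebra ℂ M) (hD : Idl D)
    (r : M) (hr : star r * r ∈ D) : r ∈ D := by
  have := hD.1
  have hcl : IsClosed (D : Set M) := hD.1
  rw [← SetLike.mem_coe, ← hcl.closure_eq, Metric.mem_closure_iff]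
  intro ε hε
  set a : M := star r * r with ha
  have hsa : IsSelfAdjoint a := IsSelfAdjoint.star_mul_self r
  set δ : ℝ := (ε / 2) ^ 2 with hδ
  have hδ0 : 0 < δ := by positivity
  let g : ℝ → ℝ := fun t => max t 0 / (δ + max t 0)
  have hpos : ∀ t : ℝ, 0 < δ + max t 0 := fun t => by
    have := le_max_right t 0
    linarith
  have hg : Continuous g :=
    Continuous.div (by fun_prop) (by fun_prop) fun t => (hpos t).ne'
  have hg0 : g 0 = 0 := by simp [g]
  have hk : cfcₙ g a ∈ D := cfcₙ_mem g hr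
  set b : M := cfcₙ g a with hb
  have hbs : star b = b := by
    have h2 : IsSelfAdjoint b := cfcₙ_predicate _ a
    exact h2
  have hbc : 1 - b = cfc (fun t => 1 - g t) a := by
    rw [hb, cfcₙ_eq_cfc (hf := hg.continuousOn) (hf0 := hg0),
      cfc_sub (fun _ : ℝ => (1 : ℝ)) g a (by fun_prop) hg.continuousOn, cfc_const_one ℝ a hsa]
  have hg1 : Continuous fun t => 1 - g t := continuous_const.sub hg
  have hac : a = cfc (fun t : ℝ => t) a := (cfc_id' ℝ a hsa).symm
  have hmain : (1 - b) * a * (1 - b) = cfc (fun t => (1 - g t) * t * (1 - g t)) a := by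
    rw [cfc_mul (fun t => (1 - g t) * t) (fun t => 1 - g t) a
      (hg1.continuousOn.mul (by fun_prop)) hg1.continuousOn,
      cfc_mul (fun t => 1 - g t) (fun t : ℝ => t) a hg1.continuousOn (by fun_prop), ← hbc, ← hac]
  have hnorm : ‖(1 - b) * a * (1 - b)‖ ≤ δ := by
    rw [hmain]
    refine norm_cfc_le hδ0.le fun t ht => ?_
    have ht0 : 0 ≤ t := spectrum_star_mul_self_nonneg t ht
    have hmx : max t 0 = t := max_eq_left ht0
    have hg2 : 1 - g t = δ / (δ + t) := by
      have : δ + t ≠ 0 := by positivity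
      show 1 - max t 0 / (δ + max t 0) = _
      rw [hmx]
      field_simp
      ring
    rw [hg2, Real.norm_of_nonneg (by positivity)]
    have h5 : 0 < δ + t := by positivity
    rw [div_mul_eq_mul_div, div_mul_div_comm, div_le_iff₀ (by positivity)]
    nlinarith [mul_nonneg hδ0.le ht0, mul_nonneg (mul_nonneg hδ0.le ht0) ht0,
      mul_nonneg hδ0.le (mul_nonneg hδ0.le hδ0.le), mul_nonneg (mul_nonneg hδ0.le ht0) hδ0.le]
  refine ⟨r * b, (hD.2 r b hk).1, ?_⟩
  rw [dist_eq_norm]
  have h6 : r - r * b = r * (1 - b) := by rw [mul_sub, mul_one]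
  have h7 : ‖r - r * b‖ * ‖r - r * b‖ ≤ δ := by
    rw [h6, ← CStarRing.norm_star_mul_self, star_mul, star_sub, star_one, hbs]
    have : (1 - b) * star r * (r * (1 - b)) = (1 - b) * a * (1 - b) := by
      rw [ha]
      simp only [mul_assoc]
    rw [this]
    exact hnorm
  have h8 : ‖r - r * b‖ ≤ ε / 2 := by
    rw [← pow_two, hδ] at h7
    exact le_of_not_gt fun h => absurd h7 (not_le.2 (pow_lt_pow_left₀ h (by positivity) (by norm_num)))
  linarith

theorem t : S_ABS := by
  intro A M _ _ D hD θ ς s₁ s₂ v hs hc hv hvD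
  obtain ⟨hs1, hs2, hs12⟩ := hs
  -- (2)
  have hr : ∀ a, ς a * v - v * θ a ∈ D := by
    intro a
    apply mem_of_star_mul D hD
    have e : star (ς a * v - v * θ a) * (ς a * v - v * θ a)
        = (star v * ς (star a * a) * v - θ (star a * a))
          - (star v * ς (star a) * v - θ (star a)) * θ a
          - θ (star a) * (star v * ς a * v - θ a) := by
      rw [star_sub, star_mul, star_mul, ← map_star, ← map_star, map_mul, map_mul]
      simp only [mul_sub, sub_mul, mul_assoc]
      rw [← mul_assoc (star v) v (θ a), hv, one_mul]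
      abel
    rw [e]
    exact D.sub_mem (D.sub_mem (hvD _) (hD.2 _ _ (hvD _)).2) (hD.2 _ _ (hvD _)).1
  have hl : ∀ a, star v * ς a - θ a * star v ∈ D := by
    intro a
    have h := star_mem (hr (star a))
    rw [star_sub, star_mul, star_mul, ← map_star, ← map_star, star_star] at h
    exact h
  obtain ⟨W₁, hW1⟩ : ∃ W : M, W = v * s₁ := ⟨_, rfl⟩
  obtain ⟨W₂, hW2⟩ : ∃ W : M, W = v * s₂ * star v + (1 - v * star v) := ⟨_, rfl⟩
  have hvv : ∀ x, star v * (v * x) = x := fun x => by rw [← mul_assoc, hv, one_mul]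
  have hss1 : ∀ x, star s₁ * (s₁ * x) = x := fun x => by rw [← mul_assoc, hs1, one_mul]
  have hss2 : ∀ x, star s₂ * (s₂ * x) = x := fun x => by rw [← mul_assoc, hs2, one_mul]
  have hW1s : star W₁ = star s₁ * star v := by rw [hW1, star_mul]
  have hW2s : star W₂ = v * star s₂ * star v + (1 - v * star v) := by
    rw [hW2]
    simp only [star_add, star_mul, star_sub, star_one, star_star, mul_assoc]
  have h11 : star W₁ * W₁ = 1 := by
    rw [hW1s, hW1, mul_assoc, hvv, hs1]
  have h22 : star W₂ * W₂ = 1 := by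
    rw [hW2s, hW2]
    simp only [mul_add, add_mul, mul_sub, sub_mul, mul_one, one_mul, mul_assoc, hvv, hss2, hv]
    abel
  have hsum : W₁ * star W₁ + W₂ * star W₂ = 1 := by
    rw [hW1s, hW2s, hW1, hW2]
    have e5 : v * (s₁ * (star s₁ * star v)) = v * star v - v * (s₂ * (star s₂ * star v)) := by
      have : s₁ * (star s₁ * star v) = star v - s₂ * (star s₂ * star v) := by
        rw [← mul_assoc, ← mul_assoc, eq_sub_iff_add_eq, ← add_mul, hs12, one_mul]
      rw [this, mul_sub]
    simp only [mul_add, add_mul, mul_sub, sub_mul, mul_one, one_mul, mul_assoc, hvv, hv, e5]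
    abel
  have h12 : star W₁ * W₂ = 0 := by
    have h1 : star W₁ * (W₁ * star W₁ + W₂ * star W₂) * W₂ = star W₁ * W₂ := by
      rw [hsum, mul_one]
    rw [mul_add, add_mul, ← mul_assoc, h11, one_mul, mul_assoc (star W₁) (W₂ * star W₂),
      mul_assoc W₂, h22, mul_one] at h1
    exact add_eq_left.1 h1
  have h21 : star W₂ * W₁ = 0 := by
    have := congrArg star h12
    rwa [star_mul, star_star, star_zero] at this
  have x11 : ∀ x, star W₁ * (W₁ * x) = x := fun x => by rw [← mul_assoc, h11, one_mul]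
  have x22 : ∀ x, star W₂ * (W₂ * x) = x := fun x => by rw [← mul_assoc, h22, one_mul]
  have x12 : ∀ x, star W₁ * (W₂ * x) = 0 := fun x => by rw [← mul_assoc, h12, zero_mul]
  have x21 : ∀ x, star W₂ * (W₁ * x) = 0 := fun x => by rw [← mul_assoc, h21, zero_mul]
  let Φ : A →⋆ₐ[ℂ] M :=
    { toFun := fun a => W₁ * θ a * star W₁ + W₂ * ς a * star W₂
      map_one' := by rw [map_one, map_one, mul_one, mul_one, hsum]
      map_mul' := fun a b => by
        rw [map_mul, map_mul]
        simp only [mul_add, add_mul, mul_assoc, x11, x22, x12, x21, mul_zero, add_zero, zero_add]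
      map_zero' := by rw [map_zero, map_zero, mul_zero, mul_zero, zero_mul, zero_mul, add_zero]
      map_add' := fun a b => by
        rw [map_add, map_add]
        simp only [mul_add, add_mul]
        abel
      commutes' := fun c => by
        rw [AlgHomClass.commutes, AlgHomClass.commutes, Algebra.algebraMap_eq_smul_one,
          mul_smul_comm, mul_smul_comm, smul_mul_assoc, smul_mul_assoc, mul_one, mul_one,
          ← smul_add, hsum]
      map_star' := fun a => by
        rw [map_star, map_star, star_add, star_mul, star_mul, star_mul, star_mul, star_star,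
          star_star, mul_assoc, mul_assoc] }
  refine ⟨Φ, fun a => ?_, fun a ha => ?_⟩
  · have e : Φ a - ς a = v * s₁ * θ a * (star s₁ * star v) + (v * s₂ * star v + (1 - v * star v))
        * ς a * (v * star s₂ * star v + (1 - v * star v)) - ς a := by
      show W₁ * θ a * star W₁ + W₂ * ς a * star W₂ - ς a = _
      rw [hW1s, hW2s, hW1, hW2]
    rw [e, key v (star v) s₁ (star s₁) s₂ (star s₂) (θ a) (ς a) hv hs12 (hc a).1 (hc a).2]
    have hm := hvD a
    refine D.sub_mem (D.sub_mem (D.add_mem (D.add_mem ?_ ?_) ?_) ?_) ?_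
    · exact (hD.2 _ _ (hD.2 _ _ (hD.2 _ _ hm).1).2).2
    · exact (hD.2 _ _ (hD.2 _ _ (hD.2 _ _ (hr a)).1).2).2
    · exact (hD.2 _ _ (hD.2 _ _ (hl a)).1).2
    · exact (hD.2 _ _ (hD.2 _ _ (hl a)).1).2
    · exact (hD.2 _ _ (hr a)).2
  · have h : star W₁ * Φ a * W₁ = θ a := by
      show star W₁ * (W₁ * θ a * star W₁ + W₂ * ς a * star W₂) * W₁ = θ a
      simp only [mul_add, add_mul, mul_assoc, x11, x12, h11, h21, mul_zero, mul_one, add_zero]
    rw [← h, ha, mul_zero, zero_mul]

end Pool.Agent.Helper51.AE
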